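import Pool.Agent.H466.HE.SB
import Pool.Agent.H585.HD.Cntn

/-!
# Local count of the zeros of the backward heat flow in wider windows (`S_CNTg`)

The argument is the one of `Pool.Agent.H585.HD.cntn`, with other radii.
-/

set_option autoImplicit false

open Complex MeasureTheory Filter Topology Set
open scoped ComplexConjugate

namespace Pool.Agent.H32.HE

open Pool.Agent.H466.HP Pool.Agent.H466.HF Pool.Agent.H466.LD Pool.Agent.H466.HN
open Pool.Agent.H466.HD Pool.Agent.H466.HE
open Pool.Agent.H862.VK (Yz)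
open Pool.Agent.H585.HD (bd1 bd2 gen)

theorem cntg (h1 : S_BACK) (h2 : S_FORW) : S_CNTg := by
  obtain ⟨A, K, μ0, T2, hK, hμ0, hT2, k, hfar⟩ := Pool.Agent.H271.HP.data4
  intro C1 hC1
  have hC0 : 0 < C1 := by linarith
  obtain ⟨D1, hD1⟩ : ∃ D1 : ℝ, D1 = 4225 + 2 * C1 := ⟨_, rfl⟩
  have hD4 : 4227 ≤ D1 := by linarith
  have hD0 : 0 < D1 := by linarith
  have hK0 : 0 < K := by linarith
  have hW : 0 < 1000 * (1 + K + μ0) := by positivity
  refine ⟨1 / 64, (5 * D1 + 5 + 11 * K * D1) + (35 * C1 + μ0 + 3622 * K * C1 ^ 2) * (3 * D1),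
    192, T2, 1 / (1000 * (1 + K + μ0)), by norm_num, by positivity, by norm_num, hT2,
    by positivity, ?_⟩
  intro T t y0 μ hT htT ht4 hy0 hy02 hR hμ hA hd h64 S hS
  have hT10 : 10 ≤ T := hT2.trans hT
  have D := hfar T t hT htT ht4
  have hΓp := D.Γpos
  set L := Real.log T with hL
  have hL1 : 1 ≤ L := by
    rw [hL, Real.le_log_iff_exp_le (by linarith)]
    have := Real.exp_one_lt_d9
    linarith
  have hLp : 0 < L := by linarith
  have hμL : μ ≤ μ * L := le_mul_of_one_le_right hμ.le hL1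
  have hμLp : 0 < μ * L := by positivity
  rw [le_div_iff₀ hW] at hd
  have hK1 : 0 ≤ (μ * L) * K := by positivity
  have hK2 : 0 ≤ (μ * L) * μ0 := by positivity
  have hKμ : K * μ ≤ K * (μ * L) := mul_le_mul_of_nonneg_left hμL hK0.le
  have h8 : 8 * (3 + μ0) * (μ * L) ≤ 1 := by linarith
  have h104 : 104 * K * μ ≤ 1 := by linarith
  have h128 : 128 * K * μ ≤ 1 := by linarith
  have hyL : 3 ≤ y0 * L := by
    have h3 : μ * L * L ≤ 64 * y0 * L := mul_le_mul_of_nonneg_right h64 hLp.le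
    have h4 : μ * L ^ 2 = μ * L * L := by ring
    rw [h4] at hA
    linarith
  have hyLp : 0 < y0 * L := by linarith
  have hl8 : Real.log 8 ≤ 3 := by
    rw [show (8 : ℝ) = 2 ^ 3 by norm_num, Real.log_pow]
    have := Real.log_two_lt_d9
    push_cast
    linarith
  have hdiff : ∀ μ : ℝ, Differentiable ℂ (LL gk (-μ)) := fun μ => k.differentiable (-μ)
  have he1 := Real.exp_one_lt_d9
  have he0 := Real.exp_pos 1
  rcases le_or_gt (3 * D1 * y0) 1 with hc | hc
  · -- small scale
    have hc1 : 12000 * y0 ≤ 1 := by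
      have : 12000 * y0 ≤ 3 * D1 * y0 := mul_le_mul_of_nonneg_right (by linarith) hy0.le
      linarith
    have hyy : y0 * L / L = y0 := by field_simp
    have RR : Rg T t (y0 * L) 64 (1 / 64) := by
      refine ⟨by rw [← hL, hyy]; exact hR.1, fun z hz => ?_⟩
      rw [← hL, hyy] at hz
      exact hR.2 z hz
    have hy1 : y0 ≤ 1 := by linarith
    have hmem : (y0 : ℂ) + (t : ℂ) * I ∈ Kt t y0 4 64 := by
      refine ⟨?_, ?_, ?_⟩
      · simp
      · simp; linarith
      · simp; linarith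
    have hGp : 0 < ‖LL gk 0 ((y0 : ℂ) + (t : ℂ) * I)‖ :=
      norm_pos_iff.2 (F_ne (cone_ne hy0 (by norm_num) hR.1 hmem))
    set G := ‖LL gk 0 ((y0 : ℂ) + (t : ℂ) * I)‖ with hG
    have hb : ∀ x y : ℝ, 0 ≤ x → |y - t| ≤ 1 → ‖LL gk (-μ) ((x : ℂ) + (y : ℂ) * I)‖ ≤
        2 * G * Real.exp (L * x + (4 * (y0 * L) + L / 21 * |y - t|) + 2 * K * x ^ 2) :=
      fun x y hx hy => bd1 h1 hL hT10 hL1 hy0 hy1 RR D hμ h64 h8 h104 hx hy
    have heD : Real.exp 1 * (D1 * y0) ≤ 2.7182818286 * (D1 * y0) :=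
      mul_le_mul_of_nonneg_right he1.le (by positivity)
    have hDy : 4227 * y0 ≤ D1 * y0 := mul_le_mul_of_nonneg_right hD4 hy0.le
    have key := gen h2 hdiff (μ := μ) (t := t) (G := G) (X1 := y0) (L := L) (E := 4 * (y0 * L))
      (K := K) (s1 := 4096 * y0) (ρ0 := D1 * y0) (E2 := (5 * D1 + 4 + 11 * K * D1) * (y0 * L))
      (xm := 4 * (D1 * y0)) (ym := 3 * (D1 * y0)) (a := (64 + C1) * y0) hμ hGp hy0.le hG
      (fun x hx => by
        have h3 := hb x t hx (by rw [sub_self, abs_zero]; norm_num)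
        rw [sub_self, abs_zero, mul_zero, add_zero] at h3
        exact h3)
      (fun s hs => by
        have hs0 := abs_nonneg s
        have e1 : s ^ 2 = |s| ^ 2 := (sq_abs s).symm
        have e2 : (y0 + s) ^ 2 = |y0 + s| ^ 2 := (sq_abs _).symm
        have h3 : |y0 + s| ≤ y0 + |s| := by
          have := abs_add_le y0 s
          rwa [abs_of_pos hy0] at this
        have h4 : |y0 + s| ^ 2 ≤ (2 * |s|) ^ 2 :=
          pow_le_pow_left₀ (abs_nonneg _) (by linarith) 2
        have h5 : L * |y0 + s| ≤ L * (y0 + |s|) := mul_le_mul_of_nonneg_left h3 hLp.le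
        have h6 : L * (4096 * y0) ≤ L * |s| := mul_le_mul_of_nonneg_left hs hLp.le
        have h7 : L * |y0 + s| + 4 * (y0 * L) + 3 ≤ 2 * (L * |s|) := by linarith
        have h8 : 2 * K * |y0 + s| ^ 2 ≤ 2 * K * (2 * |s|) ^ 2 :=
          mul_le_mul_of_nonneg_left h4 (by positivity)
        rw [e1, e2, le_div_iff₀ (by positivity)]
        have h9 : (L * |y0 + s| + 4 * (y0 * L) + 2 * K * |y0 + s| ^ 2 + 3) * (8 * μ) ≤
            (2 * (L * |s|) + 2 * K * (2 * |s|) ^ 2) * (8 * μ) :=
          mul_le_mul_of_nonneg_right (by linarith) (by positivity)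
        refine h9.trans ?_
        have h10 : 16 * (μ * L) * |s| ≤ |s| / 2 * |s| :=
          mul_le_mul_of_nonneg_right (by linarith) hs0
        have h11 : 64 * K * μ * |s| ^ 2 ≤ 1 / 2 * |s| ^ 2 :=
          mul_le_mul_of_nonneg_right (by linarith) (by positivity)
        have e3 : (2 * (L * |s|) + 2 * K * (2 * |s|) ^ 2) * (8 * μ) =
          16 * (μ * L) * |s| + 64 * K * μ * |s| ^ 2 := by ring
        rw [e3]
        have e4 : |s| / 2 * |s| = 1 / 2 * |s| ^ 2 := by ring
        rw [e4] at h10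
        linarith)
      (by positivity)
      (fun x y hx hxm hy => by
        have hy1 : 3 * (D1 * y0) ≤ 1 := by linarith
        refine (hb x y hx (by linarith)).trans ?_
        apply mul_le_mul_of_nonneg_left _ (by positivity)
        apply Real.exp_le_exp.mpr
        have h3 : L * x ≤ L * (4 * (D1 * y0)) := mul_le_mul_of_nonneg_left hxm hLp.le
        have h4 : L / 21 * |y - t| ≤ L / 21 * (3 * (D1 * y0)) :=
          mul_le_mul_of_nonneg_left hy (by positivity)
        have h5 : x ^ 2 ≤ 16 / 3 * D1 * (y0 * L) := by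
          have h6 : x ^ 2 ≤ (4 * (D1 * y0)) ^ 2 := pow_le_pow_left₀ hx hxm 2
          have h7 : (4 * (D1 * y0)) ^ 2 ≤ 16 / 3 * D1 * y0 := by
            have h8 : 3 * D1 * y0 * (16 / 3 * D1 * y0) ≤ 1 * (16 / 3 * D1 * y0) :=
              mul_le_mul_of_nonneg_right hc (by positivity)
            have e : (4 * (D1 * y0)) ^ 2 = 3 * D1 * y0 * (16 / 3 * D1 * y0) := by ring
            rw [e]
            linarith
          have h8 : 16 / 3 * D1 * (y0 * 1) ≤ 16 / 3 * D1 * (y0 * L) :=
            mul_le_mul_of_nonneg_left (mul_le_mul_of_nonneg_left hL1 hy0.le) (by positivity)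
          linarith
        have h6 : 2 * K * x ^ 2 ≤ 2 * K * (16 / 3 * D1 * (y0 * L)) :=
          mul_le_mul_of_nonneg_left h5 (by positivity)
        have h7 : 0 ≤ K * (D1 * (y0 * L)) := by positivity
        have h9 : 0 ≤ D1 * (y0 * L) := by positivity
        linarith)
      (by linarith)
      (by linarith)
      S
      (fun u hu => by
        obtain ⟨h3, h4, h5⟩ := hS u hu
        have h6 : 0 ≤ C1 * y0 := by positivity
        exact ⟨h3, by linarith, by linarith⟩)
      (by rw [hD1]; linarith)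
    refine key.trans ?_
    have h3 : 0 ≤ (35 * C1 + μ0 + 3622 * K * C1 ^ 2) * (3 * D1) * (y0 * L) := by positivity
    linarith
  · -- bounded scale
    have hmem := D.low (((2 : ℝ) : ℂ) + (t : ℂ) * I) (by simp; norm_num)
    have hGp : 0 < ‖LL gk 0 (((2 : ℝ) : ℂ) + (t : ℂ) * I)‖ := lt_of_lt_of_le (by positivity) hmem
    set G := ‖LL gk 0 (((2 : ℝ) : ℂ) + (t : ℂ) * I)‖ with hG
    have hb : ∀ x y : ℝ, 0 ≤ x → ‖LL gk (-μ) ((x : ℂ) + (y : ℂ) * I)‖ ≤
        2 * G * Real.exp (L * x + (μ0 * L + 6 * K + 2 * K * (y - t) ^ 2) + 2 * K * x ^ 2) :=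
      fun x y hx => bd2 h1 hL1 D hμ h104 hx
    have hμL2 : μ * L ≤ 1 / 2 := by linarith
    have heC : Real.exp 1 * (10 * C1) ≤ 2.7182818286 * (10 * C1) :=
      mul_le_mul_of_nonneg_right he1.le (by positivity)
    have key := gen h2 hdiff (μ := μ) (t := t) (G := G) (X1 := 2) (L := L) (E := μ0 * L + 6 * K)
      (K := K) (s1 := 2) (ρ0 := 10 * C1) (E2 := (32 * C1 + μ0 + 3622 * K * C1 ^ 2) * L)
      (xm := 32 * C1) (ym := 28 * C1) (a := 3 * C1) hμ hGp (by norm_num) hG
      (fun x hx => by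
        have h3 := hb x t hx
        rw [sub_self] at h3
        have e : μ0 * L + 6 * K + 2 * K * (0 : ℝ) ^ 2 = μ0 * L + 6 * K := by ring
        rw [e] at h3
        exact h3)
      (fun s hs => by
        have hs0 := abs_nonneg s
        have e1 : s ^ 2 = |s| ^ 2 := (sq_abs s).symm
        have e2 : (2 + s) ^ 2 = |2 + s| ^ 2 := (sq_abs _).symm
        have h3 : |2 + s| ≤ 2 + |s| := by
          have := abs_add_le 2 s
          rwa [abs_of_pos (show (0 : ℝ) < 2 by norm_num)] at this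
        have h4 : |2 + s| ^ 2 ≤ (2 * |s|) ^ 2 :=
          pow_le_pow_left₀ (abs_nonneg _) (by linarith) 2
        have hs4 : 2 * |s| ≤ |s| ^ 2 := by
          have := mul_le_mul_of_nonneg_right hs hs0
          rw [pow_two]
          exact this
        have hs5 : 4 ≤ |s| ^ 2 := by linarith
        have h5 : L * |2 + s| ≤ L * |s| ^ 2 := by
          apply mul_le_mul_of_nonneg_left _ hLp.le
          linarith
        have h8 : 2 * K * |2 + s| ^ 2 ≤ 2 * K * (2 * |s|) ^ 2 :=
          mul_le_mul_of_nonneg_left h4 (by positivity)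
        have h6 : (μ0 * L + 6 * K + 3) * 4 ≤ (μ0 * L + 6 * K + 3) * |s| ^ 2 :=
          mul_le_mul_of_nonneg_left hs5 (by positivity)
        rw [e1, e2, le_div_iff₀ (by positivity)]
        have h7 : 0 ≤ (μ0 * L + 6 * K + 3) * |s| ^ 2 := by positivity
        have h9 : (L * |2 + s| + (μ0 * L + 6 * K) + 2 * K * |2 + s| ^ 2 + 3) * (8 * μ) ≤
            ((L + (μ0 * L + 6 * K + 3) + 8 * K) * |s| ^ 2) * (8 * μ) :=
          mul_le_mul_of_nonneg_right (by linarith) (by positivity)
        refine h9.trans ?_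
        have e3 : (L + (μ0 * L + 6 * K + 3) + 8 * K) * |s| ^ 2 * (8 * μ) =
          (8 * (μ * L) + 8 * (μ * L * μ0) + 112 * (K * μ) + 24 * μ) * |s| ^ 2 := by ring
        rw [e3]
        have h10 : (8 * (μ * L) + 8 * (μ * L * μ0) + 112 * (K * μ) + 24 * μ) * |s| ^ 2 ≤
            1 * |s| ^ 2 := by
          apply mul_le_mul_of_nonneg_right _ (by positivity)
          linarith
        linarith)
      (by positivity)
      (fun x y hx hxm hy => by
        refine (hb x y hx).trans ?_
        apply mul_le_mul_of_nonneg_left _ (by positivity)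
        apply Real.exp_le_exp.mpr
        have h3 : L * x ≤ L * (32 * C1) := mul_le_mul_of_nonneg_left hxm hLp.le
        have h4 : (y - t) ^ 2 ≤ (28 * C1) ^ 2 := by
          rw [← sq_abs (y - t)]
          exact pow_le_pow_left₀ (abs_nonneg _) hy 2
        have h5 : x ^ 2 ≤ (32 * C1) ^ 2 := pow_le_pow_left₀ hx hxm 2
        have h6 : 2 * K * x ^ 2 ≤ 2 * K * (32 * C1) ^ 2 :=
          mul_le_mul_of_nonneg_left h5 (by positivity)
        have h7 : 2 * K * (y - t) ^ 2 ≤ 2 * K * (28 * C1) ^ 2 :=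
          mul_le_mul_of_nonneg_left h4 (by positivity)
        have h8 : 1 ≤ C1 ^ 2 := one_le_pow₀ hC1
        have h9 : 6 * K * 1 ≤ 6 * K * C1 ^ 2 := mul_le_mul_of_nonneg_left h8 (by positivity)
        have h10 : 3622 * K * C1 ^ 2 * 1 ≤ 3622 * K * C1 ^ 2 * L :=
          mul_le_mul_of_nonneg_left hL1 (by positivity)
        linarith)
      (by linarith)
      (by linarith)
      S
      (fun u hu => by
        obtain ⟨h3, h4, h5⟩ := hS u hu
        have h6 : C1 * y0 ≤ C1 * 2 := mul_le_mul_of_nonneg_left hy02 hC0.le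
        exact ⟨h3, by linarith, by linarith⟩)
      (by linarith)
    refine key.trans ?_
    have h3 : L ≤ 3 * D1 * (y0 * L) := by
      have h4 : 1 * L ≤ 3 * D1 * y0 * L := mul_le_mul_of_nonneg_right hc.le hLp.le
      linarith
    have h4 : (35 * C1 + μ0 + 3622 * K * C1 ^ 2) * L ≤
        (35 * C1 + μ0 + 3622 * K * C1 ^ 2) * (3 * D1 * (y0 * L)) :=
      mul_le_mul_of_nonneg_left h3 (by positivity)
    have h5 : 0 ≤ (5 * D1 + 5 + 11 * K * D1) * (y0 * L) := by positivity
    have h6 : 1 * 1 ≤ C1 * L := mul_le_mul hC1 hL1 zero_le_one hC0.le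
    linarith

end Pool.Agent.H32.HE
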